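import Pool.Agent.H53.HR.Targets

/-!
# MP_f2da09_co, module LAY: breadth first search
-/

namespace Pool.Agent.H32.HR

open Finset
open Pool.Agent.H53.HR

/-- There is a walk of length `s` from `z` to a vertex inside `B`. -/
inductive Rch {V : Type} (G : SimpleGraph V) (B : Finset V) (z : V) : ℕ → V → Prop
  | base : Rch G B z 0 z
  | step {s : ℕ} {x y : V} : Rch G B z s x → y ∈ B → G.Adj x y → Rch G B z (s + 1) y

theorem lay : LAY := by
  classical
  intro V _ G B z hB hz
  have hmem : ∀ s y, Rch G B z s y → y ∈ B := by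
    intro s y h
    cases h with
    | base => exact hz
    | step _ h _ => exact h
  have h0 : ∀ y, Rch G B z 0 y → y = z := by
    intro y h
    cases h with
    | base => rfl
  have hS : ∀ s y, Rch G B z (s + 1) y → ∃ x, Rch G B z s x ∧ G.Adj x y := by
    intro s y h
    cases h with
    | step h1 _ h3 => exact ⟨_, h1, h3⟩
  have hall : ∀ y ∈ B, ∃ s, Rch G B z s y := by
    by_contra hc
    push Not at hc
    obtain ⟨y0, hy0, hn⟩ := hc
    have hmz : z ∈ B.filter (fun y => ∃ s, Rch G B z s y) :=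
      mem_filter.2 ⟨hz, 0, Rch.base⟩
    have hne : B.filter (fun y => ∃ s, Rch G B z s y) ≠ B := by
      intro he
      have h1 : y0 ∈ B.filter (fun y => ∃ s, Rch G B z s y) := by rw [he]; exact hy0
      obtain ⟨s, hs⟩ := (mem_filter.1 h1).2
      exact hn s hs
    obtain ⟨x, hx, y, hy, hyn, hxy⟩ := hB.2 _ (filter_subset _ _) ⟨z, hmz⟩ hne
    obtain ⟨s, hs⟩ := (mem_filter.1 hx).2
    exact hyn (mem_filter.2 ⟨hy, s + 1, Rch.step hs hy hxy⟩)
  have hf : ∃ f : V → ℕ, ∀ y ∈ B, Rch G B z (f y) y ∧ ∀ s, Rch G B z s y → f y ≤ s := by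
    refine ⟨fun y => if h : ∃ s, Rch G B z s y then Nat.find h else 0, ?_⟩
    intro y hy
    have h := hall y hy
    simp only [dif_pos h]
    exact ⟨Nat.find_spec h, fun s hs => Nat.find_min' h hs⟩
  obtain ⟨f, hf⟩ := hf
  refine ⟨f, ?_, ?_, ?_⟩
  · intro y hy
    constructor
    · intro h
      have := (hf y hy).1
      rw [h] at this
      exact h0 y this
    · intro h
      subst h
      exact Nat.le_zero.1 ((hf y hy).2 0 Rch.base)
  · intro y hy s hs
    have h1 := (hf y hy).1
    rw [hs] at h1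
    obtain ⟨x, hx, hxy⟩ := hS s y h1
    have hxB := hmem s x hx
    refine ⟨x, hxB, hxy.symm, ?_⟩
    have h2 := (hf x hxB).2 s hx
    have h3 := (hf y hy).2 (f x + 1) (Rch.step (hf x hxB).1 hy hxy)
    omega
  · intro y hy y' hy' hyy
    exact (hf y' hy').2 (f y + 1) (Rch.step (hf y hy).1 hy' hyy)

end Pool.Agent.H32.HR
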