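import Pool.Agent.H53.HR.Targets

/-!
# MP_f2da09_co, module LEV: one level
-/

namespace Pool.Agent.H32.HR

open Finset
open Pool.Agent.H53.HR

theorem lev (hsb : HSB) (cmp : CMP) (hlay : LAY) : LEV := by
  classical
  intro V _ G B h h1 hnb hB
  obtain ⟨B1, hB1, hc1, hn1⟩ := cmp V G B (2 * h) hB
  obtain ⟨z, hz⟩ := hc1.1
  obtain ⟨f, hf0, hfp, hfa⟩ := hlay V G B1 z hc1 hz
  -- the parity class
  have key : ∃ X ⊆ B1, (∀ x ∈ X, ∀ y ∈ X, f x % 2 = f y % 2) ∧ ¬ HallLE G X h := by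
    by_contra hc
    push Not at hc
    have hE := hc (B1.filter (fun y => f y % 2 = 0)) (filter_subset _ _)
      (by intro x hx y hy; rw [(mem_filter.1 hx).2, (mem_filter.1 hy).2])
    have hO := hc (B1.filter (fun y => f y % 2 = 1)) (filter_subset _ _)
      (by intro x hx y hy; rw [(mem_filter.1 hx).2, (mem_filter.1 hy).2])
    have hu := (hsb V G _ _ h h).1 hE hO
    apply hn1
    have he : B1.filter (fun y => f y % 2 = 0) ∪ B1.filter (fun y => f y % 2 = 1) = B1 := by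
      ext y
      simp only [mem_union, mem_filter]
      constructor
      · rintro (h | h)
        · exact h.1
        · exact h.1
      · intro hy
        rcases Nat.mod_two_eq_zero_or_one (f y) with h | h
        · exact Or.inl ⟨hy, h⟩
        · exact Or.inr ⟨hy, h⟩
    rw [he] at hu
    rw [two_mul]
    exact hu
  obtain ⟨X, hXB, hXp, hXn⟩ := key
  obtain ⟨B', hB'X, hcB, hnB⟩ := cmp V G X h hXn
  obtain ⟨b0, hb0⟩ := hcB.1
  have hB'1 : B' ⊆ B1 := hB'X.trans hXB
  have hlayer : ∀ y ∈ B', f y = f b0 := by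
    by_contra hc
    push Not at hc
    obtain ⟨y0, hy0, hyn⟩ := hc
    have hne : B'.filter (fun y => f y = f b0) ≠ B' := by
      intro he
      have h2 : y0 ∈ B'.filter (fun y => f y = f b0) := by rw [he]; exact hy0
      exact hyn (mem_filter.1 h2).2
    obtain ⟨x, hx, y, hy, hyS, hxy⟩ := hcB.2 (B'.filter (fun y => f y = f b0))
      (filter_subset _ _) ⟨b0, mem_filter.2 ⟨hb0, rfl⟩⟩ hne
    have hx' := mem_filter.1 hx
    have e1 := hfa x (hB'1 hx'.1) y (hB'1 hy) hxy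
    have e2 := hfa y (hB'1 hy) x (hB'1 hx'.1) hxy.symm
    have e3 := hXp x (hB'X hx'.1) y (hB'X hy)
    have e4 := hx'.2
    exact hyS (mem_filter.2 ⟨hy, by omega⟩)
  have hs0 : f b0 ≠ 0 := by
    intro hs
    apply hnB
    intro U hU
    refine ⟨U, Subset.refl _, ?_, Nat.le_mul_of_pos_left _ h1⟩
    intro x hx y hy hxy
    have ex : x = z := (hf0 x (hB'1 (hU hx))).1 (by rw [hlayer x (hU hx), hs])
    have ey : y = z := (hf0 y (hB'1 (hU hy))).1 (by rw [hlayer y (hU hy), hs])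
    rw [ex, ey] at hxy
    exact G.loopless.irrefl z hxy
  have hs1 : f b0 ≠ 1 := by
    intro hs
    apply hnB
    intro U hU
    apply hnb z (hB1 hz) U
    intro y hy
    have hyB := hB'1 (hU hy)
    obtain ⟨y', hy', hadj, hfy'⟩ := hfp y hyB 0 (by rw [hlayer y (hU hy), hs])
    have : y' = z := (hf0 y' hy').1 hfy'
    subst this
    exact mem_filter.2 ⟨hB1 hyB, hadj.symm⟩
  have hfz : f z = 0 := (hf0 z hz).2 rfl
  have hnz : ∀ y ∈ B1, y ≠ z → ∃ y' ∈ B1, G.Adj y y' ∧ f y' + 1 = f y := by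
    intro y hy hne
    have h2 : f y ≠ 0 := fun hc => hne ((hf0 y hy).1 hc)
    obtain ⟨t, ht⟩ := Nat.exists_eq_succ_of_ne_zero h2
    obtain ⟨y', hy', ha, he⟩ := hfp y hy t ht
    exact ⟨y', hy', ha, by omega⟩
  refine ⟨B1.filter (fun y => f y + 2 ≤ f b0), B1.filter (fun y => f y + 1 = f b0), B',
    (filter_subset _ _).trans hB1, (filter_subset _ _).trans hB1, hB'1.trans hB1, ⟨?_, ?_⟩,
    hnB, ?_, ?_, ?_, ?_⟩
  · exact ⟨z, mem_filter.2 ⟨hz, by omega⟩⟩
  · intro S hS hSne hSQ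
    by_cases hzS : z ∈ S
    · have hT : (B1.filter (fun y => f y + 2 ≤ f b0) \ S).Nonempty := by
        rw [sdiff_nonempty]
        intro hc
        exact hSQ (Subset.antisymm hS hc)
      obtain ⟨y, hy, hmin⟩ := exists_min_image _ f hT
      have hy1 := mem_sdiff.1 hy
      have hy2 := mem_filter.1 hy1.1
      obtain ⟨y', hy', ha, he⟩ := hnz y hy2.1 (fun hc => hy1.2 (hc ▸ hzS))
      have hy'Q : y' ∈ B1.filter (fun y => f y + 2 ≤ f b0) :=
        mem_filter.2 ⟨hy', by have := hy2.2; omega⟩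
      by_cases hyS : y' ∈ S
      · exact ⟨y', hyS, y, hy1.1, hy1.2, ha.symm⟩
      · exfalso
        have := hmin y' (mem_sdiff.2 ⟨hy'Q, hyS⟩)
        omega
    · obtain ⟨y, hy, hmin⟩ := exists_min_image _ f hSne
      have hy2 := mem_filter.1 (hS hy)
      obtain ⟨y', hy', ha, he⟩ := hnz y hy2.1 (fun hc => hzS (hc ▸ hy))
      have hy'Q : y' ∈ B1.filter (fun y => f y + 2 ≤ f b0) :=
        mem_filter.2 ⟨hy', by have := hy2.2; omega⟩
      refine ⟨y, hy, y', hy'Q, ?_, ha⟩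
      intro hyS
      have := hmin y' hyS
      omega
  · intro a ha
    have ha' := mem_filter.1 ha
    obtain ⟨y', hy', hadj, he⟩ := hfp a ha'.1 (f a - 1) (by have := ha'.2; omega)
    exact ⟨y', mem_filter.2 ⟨hy', by have := ha'.2; omega⟩, hadj⟩
  · intro b hb
    obtain ⟨y', hy', hadj, he⟩ := hfp b (hB'1 hb) (f b0 - 1) (by rw [hlayer b hb]; omega)
    exact ⟨y', mem_filter.2 ⟨hy', by omega⟩, hadj⟩
  · intro q hq b hb hadj
    have hq' := mem_filter.1 hq
    have h3 := hfa q hq'.1 b (hB'1 hb) hadj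
    have h4 := hlayer b hb
    have h5 := hq'.2
    omega
  · rw [Finset.disjoint_left]
    intro q hq hb
    have hq' := mem_filter.1 hq
    have h4 := hlayer q hb
    have h5 := hq'.2
    omega

end Pool.Agent.H32.HR
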