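import Pool.Agent.H53.HR.Targets

/-!
# MP_f2da09_co, module LVS: many nested levels
-/

namespace Pool.Agent.H32.HR

open Finset
open Pool.Agent.H53.HR

theorem lvs (hsb : HSB) (hlev : LEV) : LVS := by
  classical
  intro V _ G k
  induction k with
  | zero =>
    intro B h h1 hnb hB
    refine ⟨Fin.elim0, Fin.elim0, B, Subset.refl _, by simpa using hB, fun l => l.elim0,
      fun l => l.elim0, fun l => l.elim0, fun l => l.elim0, fun l => l.elim0, fun l => l.elim0⟩
  | succ k ih =>
    intro B h h1 hnb hB
    have hp : 1 ≤ 2 ^ k := Nat.one_le_two_pow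
    have hle : h ≤ 2 ^ k * h := Nat.le_mul_of_pos_left _ hp
    obtain ⟨Q0, A0, B1, hQ0, hA0, hB1, hc0, hn1, ha0, hb1, han, hdis⟩ :=
      hlev V G B (2 ^ k * h) (h1.trans hle)
        (fun v hv => (hsb V G _ _ _ _).2.2 (hnb v hv) (Subset.refl _) hle)
        (by rw [← mul_assoc, ← pow_succ']; exact hB)
    obtain ⟨Q1, A1, B', hB', hn', hsub, hc, haq, hba, hqb, hll⟩ := ih B1 h h1
      (fun v hv => (hsb V G _ _ _ _).2.2 (hnb v (hB1 hv))
        (filter_subset_filter _ hB1) le_rfl) hn1
    refine ⟨Fin.cons (α := fun _ => Finset V) Q0 Q1, Fin.cons (α := fun _ => Finset V) A0 A1, B',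
      hB'.trans hB1, hn', ?_, ?_, ?_, ?_, ?_, ?_⟩
    · intro l
      refine Fin.cases ?_ (fun i => ?_) l
      · exact ⟨hQ0, hA0⟩
      · exact ⟨(hsub i).1.trans hB1, (hsub i).2.trans hB1⟩
    · intro l
      refine Fin.cases ?_ (fun i => ?_) l
      · exact hc0
      · exact hc i
    · intro l
      refine Fin.cases ?_ (fun i => ?_) l
      · exact ha0
      · exact haq i
    · intro l
      refine Fin.cases ?_ (fun i => ?_) l
      · exact fun b hb => hb1 b (hB' hb)
      · exact hba i
    · intro l
      refine Fin.cases ?_ (fun i => ?_) l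
      · exact ⟨fun q hq b hb => han q hq b (hB' hb), disjoint_of_subset_right hB' hdis⟩
      · exact hqb i
    · intro l l'
      refine Fin.cases ?_ (fun i' => ?_) l'
      · intro hlt
        exact absurd hlt (Fin.not_lt_zero _)
      · refine Fin.cases ?_ (fun i => ?_) l
        · intro _
          exact ⟨fun q hq b hb => han q hq b ((hsub i').1 hb),
            disjoint_of_subset_right (hsub i').1 hdis,
            fun q hq b hb => han q hq b ((hsub i').2 hb)⟩
        · intro hlt
          exact hll i i' (Fin.succ_lt_succ_iff.1 hlt)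

end Pool.Agent.H32.HR
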