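import Pool.Agent.H53.HR.Targets

/-!
# MP_f2da09_co, module SMP: choice of the columns
-/

namespace Pool.Agent.H32.HR

open Finset
open Pool.Agent.H53.HR

theorem smp (dig : DIG) : SMP := by
  classical
  intro V _ G B η h k m p h1 hm hh hB hnb hnp
  have hU : ∃ U ⊆ B, ∀ I ⊆ U, Indep G I → h * #I < #U := by
    by_contra hc
    push Not at hc
    exact hB hc
  obtain ⟨U, hUB, hUI⟩ := hU
  have hpos : 0 < #U := by
    have := hUI ∅ (empty_subset _) (by intro x hx; exact absurd hx (notMem_empty x))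
    simpa using this
  obtain ⟨u, hu⟩ := card_pos.1 hpos
  have hhU : h < #U := by
    have := hUI {u} (singleton_subset_iff.2 hu) (by
      intro x hx y hy
      rw [mem_singleton.1 hx, mem_singleton.1 hy]
      exact G.loopless.irrefl u)
    simpa using this
  have hgen : ∀ v, HallLE G (B.filter (fun y => G.Adj v y)) η →
      h * #(U.filter (fun y => G.Adj v y)) ≤ η * #U := by
    intro v hv
    obtain ⟨I, hI, hInd, hcard⟩ := hv (U.filter (fun y => G.Adj v y)) (filter_subset_filter _ hUB)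
    have h2 := hUI I (hI.trans (filter_subset _ _)) hInd
    calc h * #(U.filter (fun y => G.Adj v y)) ≤ h * (η * #I) := Nat.mul_le_mul_left _ hcard
      _ = η * (h * #I) := by ring
      _ ≤ η * #U := Nat.mul_le_mul_left _ h2.le
  have hh0 : 0 < h := by
    have : 0 < 4 * (k + 1) * η * m := by positivity
    omega
  obtain ⟨bad, hbad⟩ : ∃ bad : V → V → Prop, ∀ x y,
      bad x y ↔ (G.Adj x y ∨ ∃ l, G.Adj (p l x) y) :=
    ⟨fun x y => G.Adj x y ∨ ∃ l, G.Adj (p l x) y, fun _ _ => Iff.rfl⟩
  have hdeg : ∀ x ∈ U, #(U.filter (fun y => y ≠ x ∧ bad x y)) ≤ (k + 1) * η * #U / h := by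
    intro x hx
    rw [Nat.le_div_iff_mul_le hh0]
    have hsub : U.filter (fun y => y ≠ x ∧ bad x y) ⊆ U.filter (fun y => G.Adj x y) ∪
        (univ : Finset (Fin k)).biUnion (fun l => U.filter (fun y => G.Adj (p l x) y)) := by
      intro y hy
      have hy' := mem_filter.1 hy
      rcases (hbad x y).1 hy'.2.2 with h2 | ⟨l, h2⟩
      · exact mem_union_left _ (mem_filter.2 ⟨hy'.1, h2⟩)
      · exact mem_union_right _ (mem_biUnion.2 ⟨l, mem_univ _, mem_filter.2 ⟨hy'.1, h2⟩⟩)
    have hc := (card_le_card hsub).trans ((card_union_le _ _).trans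
      (Nat.add_le_add_left card_biUnion_le _))
    have hx1 := hgen x (hnb x (hUB hx))
    have hx2 : ∀ l ∈ (univ : Finset (Fin k)),
        h * #(U.filter (fun y => G.Adj (p l x) y)) ≤ η * #U :=
      fun l _ => hgen (p l x) (hnp l x (hUB hx))
    have hx3 := sum_le_sum hx2
    rw [← mul_sum, sum_const, card_univ, Fintype.card_fin, smul_eq_mul] at hx3
    calc #(U.filter (fun y => y ≠ x ∧ bad x y)) * h
        ≤ (#(U.filter (fun y => G.Adj x y)) +
          ∑ l : Fin k, #(U.filter (fun y => G.Adj (p l x) y))) * h := Nat.mul_le_mul_right _ hc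
      _ = h * #(U.filter (fun y => G.Adj x y)) +
          h * ∑ l : Fin k, #(U.filter (fun y => G.Adj (p l x) y)) := by ring
      _ ≤ η * #U + k * (η * #U) := Nat.add_le_add hx1 hx3
      _ = (k + 1) * η * #U := by ring
  have hsize : m * (2 * ((k + 1) * η * #U / h) + 1) ≤ #U := by
    set d := (k + 1) * η * #U / h with hd
    have hd1 : d * h ≤ (k + 1) * η * #U := Nat.div_mul_le_self _ _
    have hkη : 1 ≤ (k + 1) * η := Nat.succ_le_of_lt (Nat.mul_pos (Nat.succ_pos _) h1)
    have h4m : 4 * m ≤ h := by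
      calc 4 * m = 4 * 1 * m := by ring
        _ ≤ 4 * ((k + 1) * η) * m := Nat.mul_le_mul_right _ (Nat.mul_le_mul_left _ hkη)
        _ = 4 * (k + 1) * η * m := by ring
        _ ≤ h := hh
    have e1 : 4 * m * (d * h) ≤ h * #U := by
      calc 4 * m * (d * h) ≤ 4 * m * ((k + 1) * η * #U) := Nat.mul_le_mul_left _ hd1
        _ = (4 * (k + 1) * η * m) * #U := by ring
        _ ≤ h * #U := Nat.mul_le_mul_right _ hh
    have e2 : 2 * m * h ≤ h * #U := by
      calc 2 * m * h ≤ #U * h := Nat.mul_le_mul_right _ (by omega)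
        _ = h * #U := mul_comm _ _
    have e3 : (2 * h) * (m * (2 * d + 1)) ≤ (2 * h) * #U := by
      calc (2 * h) * (m * (2 * d + 1)) = 4 * m * (d * h) + 2 * m * h := by ring
        _ ≤ h * #U + h * #U := Nat.add_le_add e1 e2
        _ = (2 * h) * #U := by ring
    exact Nat.le_of_mul_le_mul_left e3 (by omega)
  obtain ⟨W, hWU, hWm, hW⟩ := dig V U bad ((k + 1) * η * #U / h) m
    (fun x hx => by
      refine (card_le_card ?_).trans (hdeg x hx)
      intro y hy
      rw [mem_filter] at hy ⊢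
      exact hy) hsize
  refine ⟨W, hWU.trans hUB, hWm, ?_⟩
  intro x hx y hy hne
  have := hW x hx y hy hne
  exact ⟨fun hc => this ((hbad x y).2 (Or.inl hc)), fun l hc => this ((hbad x y).2 (Or.inr ⟨l, hc⟩))⟩

end Pool.Agent.H32.HR
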